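import Pool.Agent.P.MP_08fd93_co.FH2.A1

/-! Short tails under one top edge: the two statements with two flows. -/

set_option autoImplicit false

namespace Pool.Agent.P.MP_08fd93_co.FH2

open OV FB FP2 TT FH

theorem h2_of (col : ∀ (J : Type) [Fintype J] (G : TD J) (φ : Vx J → Vx J)
    (v z la lb lc ld : Vx J) (E : FZ.EJ J) (Y : TX J), TQ G v z la lb lc ld →
      FK.PH (FT G) G.Pr φ → TK G φ z E Y → ∃ c, Col1 G.Γ ∅ c) : S_H2 := by
  rintro J _ G φ v z la lb lc ld h - hφ ⟨W, h2, f, l1, l2, fr⟩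
  obtain ⟨E, Y, k⟩ := tk_h2 h hφ W h2 l1 l2 fr
  exact col J G φ v z la lb lc ld E Y h hφ k

theorem ho_of (col : ∀ (J : Type) [Fintype J] (G : TD J) (φ : Vx J → Vx J)
    (v z la lb lc ld : Vx J) (E : FZ.EJ J) (Y : TX J), TQ G v z la lb lc ld →
      FK.PH (FT G) G.Pr φ → TK G φ z E Y → ∃ c, Col1 G.Γ ∅ c) : S_HO := by
  rintro J _ G φ v z la lb lc ld h - hφ ⟨W, h2, q, hf, fr⟩
  obtain ⟨E, Y, k⟩ := tk_ho h hφ W h2 q hf fr
  exact col J G φ v z la lb lc ld E Y h hφ k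

end Pool.Agent.P.MP_08fd93_co.FH2
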