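import Pool.Agent.P.MP_08fd93_co.FK.K8
import Pool.Agent.P.MP_08fd93_co.FP2.M1
import Pool.Agent.P.MP_08fd93_co.FT.T1
import Pool.Agent.P.MP_08fd93_co.FH.St

/-! Short tails under one top edge: plans with two flows. -/

set_option autoImplicit false

namespace Pool.Agent.P.MP_08fd93_co.FH2

open OV PkPrtP FB FE FZ FN FR FK FP2 TT FH

variable {J : Type} {G : TD J} {φ : Vx J → Vx J} {v z la lb lc ld e x g s p y : Vx J}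
  {E A : EJ J} {δ μ : Prop} {b : ℤ × ℤ} {jz : Jb} {m : ℕ}

/-- the table of the arrivals -/
theorem pick_int {q r f n a a' : ℤ} (h1 : r = q ∨ r = q + 1) (n4 : 4 ≤ n) (l1 : r < f)
    (l2 : f < q + n) (a1 : q ≤ a) (a2 : a < q + n) (b1 : q ≤ a') (b2 : a' < q + n) :
    (r = q + 1 ∧ a = q ∧ a' = q) ∨ ∃ s p t, ((p = a ∧ t = a') ∨ (p = a' ∧ t = a)) ∧ s ≠ t ∧
      ((r ≤ s ∧ s < f ∧ f ≤ p ∧ p < q + n) ∨ (r ≤ p ∧ p < f ∧ f ≤ s ∧ s < q + n)) := by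
  have key : ∀ a a' : ℤ, r ≤ a → a < q + n → (a' = q ∧ r = q + 1) ∨ (a < f ↔ a' < f) ∨
      (a < f ∧ f + 1 < q + n) ∨ (f ≤ a ∧ r + 1 < f) → ∃ s, s ≠ a' ∧
      ((r ≤ s ∧ s < f ∧ f ≤ a ∧ a < q + n) ∨ (r ≤ a ∧ a < f ∧ f ≤ s ∧ s < q + n)) := by
    intro a a' c1 c2 c
    rcases lt_or_ge a f with o | o
    · by_cases e : a' = f
      exacts [⟨f + 1, by omega, by omega⟩, ⟨f, by omega, by omega⟩]
    · by_cases e : a' = r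
      exacts [⟨r + 1, by omega, by omega⟩, ⟨r, by omega, by omega⟩]
  by_cases c : r ≤ a ∧ ((a' = q ∧ r = q + 1) ∨ (a < f ↔ a' < f) ∨ (a < f ∧ f + 1 < q + n) ∨
    (f ≤ a ∧ r + 1 < f))
  · obtain ⟨s, k⟩ := key a a' c.1 a2 c.2
    exact Or.inr ⟨s, a, a', Or.inl ⟨rfl, rfl⟩, k⟩
  by_cases c' : r ≤ a'
  · obtain ⟨s, k⟩ := key a' a c' b2 (by omega)
    exact Or.inr ⟨s, a', a, Or.inr ⟨rfl, rfl⟩, k⟩
  · omega

theorem pu_orb {F : FD J} {Pr : Set (Vx J)} (hφ : PH F Pr φ) (s e : Vx J) :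
    ∃ g0, ∀ g ∈ F.LA, g.1 = s.1 → φ g = e → g = g0 := by
  by_cases c : ∃ g ∈ F.LA, g.1 = s.1 ∧ φ g = e
  · obtain ⟨g0, -, a2, a3⟩ := c
    exact ⟨g0, fun g b1 b2 b3 => hφ.inj1 b1 (b2.trans a2.symm) (b3.trans a3.symm)⟩
  · exact ⟨e, fun g b1 b2 b3 => absurd ⟨g, b1, b2, b3⟩ c⟩

section

variable (h : TQ G v z la lb lc ld)
include h

theorem pin_tr (a : ℤ × ℤ) (t : Vx J) (k : t ∈ Pin G E) : tr a t ∈ Pin G E :=
  k.elim Or.inl fun c => Or.inr (h.chd_iff.2 (h.chd_iff.1 c :))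

theorem vt_tr (a : ℤ × ℤ) (t : Vx J) (k : t ∈ Vt G E) : tr a t ∈ Vt G E := by
  obtain ⟨n, y, hy, rfl⟩ := k
  refine ⟨n, tr a y, ?_, (h.st.ft_tr a y n).symm⟩
  rcases hy with ⟨g, g1, g2, g3⟩ | ⟨k, k1, k2⟩
  · exact Or.inl ⟨tr a g, pin_tr h a g g1, (h.st.lay.la_tr a g).2 g2,
      g3.imp (congrArg _) fun c => by rw [c, h.rows.nx_tr a g2]⟩
  · exact Or.inr ⟨tr a k, h.st.tf.vtr _ _ k1, k2.imp (fun c => by rw [c, (h.st.tf.xtr a k).1])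
      fun c => by rw [c, (h.st.tf.xtr a k).2.1]⟩

/-- vertices of one period of a row lie in different orbits -/
theorem orb_ne {j : ℤ} (hx : x ∈ G.L j) (hy : y ∈ G.L j) (l1 : G.ρ x < G.ρ y)
    (l2 : G.ρ y < G.ρ x + G.nn j) : x.1 ≠ y.1 := by
  have : (G.l j (G.ρ x)).1 ≠ (G.l j (G.ρ y)).1 := l_ne h.st.lay j l1 l2
  rwa [h.rows.l_rho hx, h.rows.l_rho hy] at this

theorem w_one {j : ℤ} (hx : x ∈ G.L j) :
    tr G.w x ∈ G.L j ∧ G.ρ (tr G.w x) = G.ρ x + G.nn j := by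
  have := h.st.lay.w_mem 1 hx
  rwa [one_smul, one_mul] at this

/-- a representative in the window that begins at the left foot -/
theorem win (hx : x ∈ G.L 0) : ∃ y ∈ G.L 0, y.1 = x.1 ∧ G.ρ (G.xl z) ≤ G.ρ y ∧
    G.ρ y < G.ρ (G.xl z) + G.nn 0 :=
  let ⟨k, c⟩ := window h.st.lay hx (G.ρ (G.xl z))
  ⟨_, (h.st.lay.w_mem k hx).1, rfl, c⟩

variable (hφ : PH (FT G) G.Pr φ)
include hφ

/-- one period of the row zero lies under `ld` -/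
theorem phi_win (W : ld = tr G.w la) (hg : g ∈ G.L 0) (l1 : G.ρ (G.xl z) ≤ G.ρ g)
    (l2 : G.ρ g < G.ρ (G.xl z) + G.nn 0) : φ g = ld := by
  obtain ⟨g, rfl⟩ := tr_surj G.w g
  have m : g ∈ G.L 0 := by
    have : tr ((-1 : ℤ) • G.w) (tr G.w g) ∈ G.L 0 := (h.st.lay.w_mem (-1) hg).1
    rwa [neg_smul, one_smul, tr_neg] at this
  obtain ⟨a1, -, -, d1, -⟩ := h.ord
  obtain ⟨p1, p2, -⟩ := h.phi hφ m
  obtain ⟨q1, -, q2⟩ := h.phi hφ hg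
  have := (w_one h m).2
  have := (w_one h a1).2
  have := (w_one h p1).2
  have := p2 (by omega)
  have := q2 l1
  rw [hφ.eqv _ _ (h.rows.la m)] at *
  exact h.rows.inj q1 d1 (by rw [W] at *; omega)

theorem ss_le {T : Set (Sym2 (Vx J))} (he : e ∈ G.LA)
    (h1 : ∀ g ∈ Pu (FT G) φ E e, s(g, G.nx g) ∈ T)
    (ha : ∀ c, e = tr c la → s(tr c z, tr c (G.xl z)) ∈ T)
    (hb : ∀ c, e = tr c lb → s(tr c v, tr c z) ∈ T)
    (hd : δ → ∀ c, e = tr c ld → s(tr c z, tr c (G.xr z)) ∈ T) :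
    SST G (Pin G E) ⟨True, True, False, δ⟩ e ⊆ T := fun f k => by
  rcases (h.ss_iff hφ he).1 k with ⟨g, g1, g2, g3, g4, rfl⟩ | ⟨c, ⟨-, q, rfl⟩ | ⟨-, q, rfl⟩ |
    ⟨q, -⟩ | ⟨r, q, rfl⟩⟩
  exacts [h1 g ⟨g2, g1.resolve_right g4, g3⟩, ha c q, hb c q, q.elim, hd r c q]

/-- The plan with the source `nx ld`, the pin `ld` and the sink `lb` on the row one; `e`, `x` are
the pins of the row zero; the chord is forced if `μ` holds. -/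
theorem core (H : FA.LB (FT G) (XT G) G.Pr φ b) (hm : G.η b = m + 1) (W : Wr G z la lc ld)
    (h2 : G.an (G.nx (G.nx la)) = z) (pd : δ ∨ jz = .d) (ej : G.xl z ≠ G.xr z → jz = .no)
    (fin : FinG (FT G) (Ar (FT G) φ ∅) 1 m {(G.nx ld).1, ld.1} {s.1, p.1})
    (rw0 : FA.Rw (FT G) 0 A) (he : e ∈ G.L 0) (hx : x ∈ G.L 0) (e1 : G.ρ (G.xr z) ≤ G.ρ e)
    (e2 : G.ρ e < G.ρ x) (e3 : G.ρ x < G.ρ (G.xl z) + G.nn 0) (pn : A.Pn = {e.1, x.1})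
    (lk : Lk (FT G) (Ar (FT G) φ ∅) m {s.1, p.1} A {i | μ ∧ i = (G.xl z).1})
    (mc : μ → G.xl z ≠ G.xr z ∧ (G.xl z).1 ∈ A.Sk ∧ ∃ t ∈ G.L 0, t.1 ∈ A.Sk ∧ t.1 ≠ (G.xl z).1)
    {T : Set (Sym2 (Vx J))} (fr : FreeR G ld T) (t1 : s(e, G.nx e) ∈ T) (t2 : s(x, G.nx x) ∈ T)
    (t3 : ea G z ∈ T) (t4 : δ → s(z, G.xr z) ∈ T)
    (kr : ∀ E : EJ J, e.1 ∈ E.Pn → KeepR G (Pin G E) (Vt G E) ⟨True, True, False, δ⟩) :
    ∃ E Y, TK G φ z E Y := by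
  have hF := h.st.lay
  have R := h.rows
  obtain ⟨a1, b1, -, d1, -, o1, -, -⟩ := h.ord
  obtain ⟨⟨x1, -⟩, ⟨x2, -⟩, x3, -⟩ := h.feet
  obtain ⟨n1, n2, -⟩ := R.nx_mem a1
  obtain ⟨n3, n4, -⟩ := R.nx_mem n1
  obtain ⟨n5, n6, -⟩ := R.nx_mem d1
  have n7 := (R.nx_mem x1).2.1
  have xx : G.ρ (G.xr z) = G.ρ (G.xl z) ∨ G.ρ (G.xr z) = G.ρ (G.xl z) + 1 :=
    x3.imp (congrArg _) fun c => by rw [c, n7]
  have w1 := (w_one h a1).2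
  have w2 := w_one h b1
  have n8 := h.n4 1
  rw [← W.ed] at w1
  rw [W.ec] at o1
  have o2 : G.ρ la + 2 ≤ G.ρ lb := by
    by_contra c
    have := (h.an_iff n3).2 ⟨by omega, by rw [W.ec]; omega⟩
    exact h.ne (by rw [← this, h2])
  have dl : ld.1 = la.1 := by rw [W.ed]; rfl
  have bd : lb.1 ≠ ld.1 := orb_ne h b1 d1 o1 (by omega)
  have nb : (G.nx ld).1 ≠ lb.1 := orb_ne (y := tr G.w lb) h n5 w2.1 (by omega) (by omega)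
  have nd : (G.nx ld).1 ≠ ld.1 := (orb_ne h d1 n5 (by omega) (by omega)).symm
  have pe : φ e = ld := phi_win h hφ W.ed he (by omega) (by omega)
  have px : φ x = ld := phi_win h hφ W.ed hx (by omega) e3
  obtain ⟨E, ag, pm, -, sy⟩ := fin (fun k => Nat.casesOn k A fun _ => FA.r2 (G.nx ld) ld lb)
    ({ld.1, lb.1} ∪ {i | μ ∧ i = (G.xl z).1})
    (by rintro (_ | _ | k) c; exacts [rw0, H.rw2 n5 ⟨lb, b1, rfl⟩ nb nd, by omega]) subset_rfl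
    (by
      rintro (_ | k) c
      · exact pn ▸ lk2 hF hφ (R.la he) (R.la hx) (Or.inl (Or.inl (Or.inl (by rw [pe]))))
          (Or.inl (Or.inl (Or.inl (by rw [px])))) fun _ =>
            Or.inr (Or.inl (Or.inl (Or.inl (by rw [pe]))))
      · omega)
    (lk.mono subset_rfl Set.subset_union_right)
  have a0 : FA.Agr (FT G) E 0 A := ag 0 (Nat.zero_le _)
  have a1' : FA.Agr (FT G) E 1 (FA.r2 (G.nx ld) ld lb) := ag 1 le_rfl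
  have p0 : FA.Pin (FT G) E 0 {e.1, x.1} := pn ▸ a0.pin
  have ch : ∀ y, Chd G y → y.1 ∉ E.Pn := fun y c o => by
    obtain ⟨c1, c2⟩ := h.chd_iff.1 c
    have : G.ρ (G.xr z) ≠ G.ρ (G.xl z) := fun q => c1 (R.inj x1 x2 q.symm)
    rcases p0 _ x1 (c2 ▸ o) with q | q
    exacts [orb_ne h x1 he (by omega) (by omega) q, orb_ne h x1 hx (by omega) e3 q]
  have ok : EOk2 (FT G) (ed E) := ⟨fun _ _ k => k, fun _ _ k => k, fun _ _ k => k,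
    fun _ _ k => k, fun _ _ k => k, fun _ _ k => k, fun y k => (sy.dis _ k).1, subset_rfl,
    Set.empty_subset _, fun j => (by
      by_cases c : ∃ y ∈ G.L j, y.1 ∈ E.Sk
      exacts [Or.inl c, Or.inr ⟨(sy.rw j).ne.resolve_left c, fun y hy o => c ⟨y, hy, o⟩⟩]),
    fun j => (sy.rw j).alt⟩
  refine ⟨E, ⟨⟨True, True, False, δ⟩, .c, jz, AS (FT G) (ed E).Src (ed E).Snk,
    {i | μ ∧ i = (G.xl z).1}, ∅, ∅⟩, sy.dis, ?_, fun _ k => k.elim, fun j => ?_,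
    Set.union_empty (AS (FT G) (ed E).Src (ed E).Snk) ▸ ori_as hF ok Dir.empty, Or.inl trivial,
    Or.inl trivial, Or.inr (Or.inl rfl), pd, fun n => ?_, keepL_a trivial,
    kr E ((a0.pn he).2 (pn ▸ Or.inl rfl)), fun y hy => ?_⟩
  · rintro _ ⟨k, rfl⟩
    exact (a0 _ x1).2.1.2 (mc k).2.1
  · by_cases c : ∃ y ∈ G.L j, μ ∧ y.1 = (G.xl z).1
    · obtain ⟨y, hy, k, q⟩ := c
      obtain ⟨-, -, t, k1, k2, k3⟩ := mc k
      obtain ⟨a, rfl⟩ : ∃ a, y = tr a (G.xl z) := ⟨_, FZ.orb_eq q⟩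
      have := (hF.l_tr a (G.xl z) t).2 (by rwa [hF.lf _ _ x1])
      rw [hF.lf _ _ hy] at this
      exact Or.inl ⟨_, this, (a0 t k1).2.1.2 k2, fun o => k3 o.2⟩
    · exact (sy.rw j).ne.imp (fun ⟨y, hy, k⟩ => ⟨y, hy, k, fun o => c ⟨y, hy, o⟩⟩)
        fun k => ⟨k, fun y hy o => c ⟨y, hy, o⟩⟩
  · have q := ej n
    exact ⟨fun o => ch _ (h.chd_iff.2 ⟨n, rfl⟩) (Or.inl o), fun o => by simp [q] at o,
      fun o => by simp [q] at o, fun o => by simp [q] at o⟩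
  by_cases c1 : y.1 = ld.1
  · obtain ⟨a, q⟩ : ∃ a, ld = tr a y := ⟨_, FZ.orb_eq c1.symm⟩
    obtain ⟨X', Q, O⟩ := fr
    have pl : ld ∈ Pin G E := Or.inl ((a1'.pn d1).2 (Or.inr rfl))
    refine Or.inr (Or.inr (Or.inr (Or.inr ⟨a, q ▸ Or.inr (Or.inr (Or.inr (Or.inl ⟨Or.inl pl,
      fun o => bd ((a1' _ d1).2.1.1 o).symm, T, X', Q, G.nx ld, ?_, Or.inr (Or.inr ⟨rfl,
        as_src2 hF ok (R.la n5) ((a1' _ n5).1.2 rfl), Or.inl fun o => ch _ o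
          ((a1'.pn d1).2 (Or.inr rfl)), Or.inl pl⟩), O.imp' fun _ _ _ k => k.2⟩)))⟩)))
    refine ss_le h hφ (R.la d1) (fun g k => ?_) (fun c k => ?_)
      (fun c k => absurd (congrArg Prod.fst k).symm bd) fun r c k => ?_
    · obtain ⟨g1, g2 | g2, g3⟩ := pu_row hF hφ p0 (by rwa [zero_add]) k
      · rwa [hφ.inj1 (hF.la g1) g2 (g3.trans pe.symm)]
      · rwa [hφ.inj1 (hF.la g1) g2 (g3.trans px.symm)]
    · rwa [← tr_eq_tr (W.ed.symm.trans k)]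
    · rw [tr_eq_self k.symm, tr_zero, tr_zero]
      exact t4 r
  have na : ∀ c, y ≠ tr c la := fun c q => c1 (by rw [q, dl]; rfl)
  have nd' : ∀ c, y ≠ tr c ld := fun c q => c1 (by rw [q]; rfl)
  by_cases c2 : y.1 = lb.1
  · obtain ⟨a, rfl⟩ : ∃ a, y = tr a lb := ⟨_, FZ.orb_eq c2⟩
    refine Or.inr (Or.inl ⟨s(tr a v, tr a z), ss_le h hφ hy (fun g k => ?_)
      (fun c k => absurd k (na c)) (fun c k => by rw [tr_eq_tr k]; rfl)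
      fun _ c k => absurd k (nd' c), Or.inl ((a1' _ b1).2.1.2 rfl)⟩)
    obtain ⟨g, k, -⟩ := pu_tr hF hφ a k
    obtain ⟨-, g2 | g2, g3⟩ := pu_row hF hφ p0 (by rwa [zero_add]) k
    · exact absurd (by rw [← g3, ← pe]; exact (hφ.fst (R.la he) g2.symm).symm) bd
    · exact absurd (by rw [← g3, ← px]; exact (hφ.fst (R.la hx) g2.symm).symm) bd
  have key : ∀ U : Set (Vx J), Pu (FT G) φ E y ⊆ U →
      SST G (Pin G E) ⟨True, True, False, δ⟩ y ⊆ (fun g => s(g, G.nx g)) '' U := fun U k =>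
    ss_le h hφ hy (fun g o => ⟨g, k o, rfl⟩) (fun c o => absurd o (na c))
      (fun c o => absurd (by rw [o]; rfl) c2) fun _ c o => absurd o (nd' c)
  by_cases c3 : μ ∧ y.1 = (G.xl z).1
  · obtain ⟨g1, k1⟩ := pu_orb hφ s y
    obtain ⟨g2, k2⟩ := pu_orb hφ p y
    refine Or.inr (Or.inr (Or.inl ⟨_, _, Set.image_pair _ g1 g2 ▸ key _ fun g k => ?_,
      Or.inr ⟨Or.inl (Or.inr (h.chd_iff.2 ⟨(mc c3.1).1, c3.2⟩)), Or.inl c3⟩⟩))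
    obtain ⟨a, q⟩ : ∃ a, y = tr a (tr b (G.xl z)) := ⟨_, FZ.orb_eq c3.2⟩
    obtain ⟨g', k', rfl⟩ := pu_tr hF hφ a (q ▸ k)
    have := (hF.ltr b 0 _).2 x1
    rw [zero_add, show (FT G).η b = m + 1 from hm] at this
    exact (pu_row hF hφ pm this k').2.1.imp (fun o => k1 _ k.1 o k.2.2) fun o => k2 _ k.1 o k.2.2
  rcases sy.top y hy (fun o => o.elim (fun o => o.elim c1 c2) c3) with k | ⟨g, k, c⟩ | ⟨g, g', k, c⟩
  · exact Or.inl ((key _ k).trans (Set.image_empty _).le)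
  · exact Or.inr (Or.inl ⟨_, Set.image_singleton ▸ key _ k, c.imp_right fun c =>
      c.elim (fun c => ⟨c, fun o => ch _ o (Or.inr c)⟩) fun c => c.2.elim⟩)
  · exact Or.inr (Or.inr (Or.inl ⟨_, _, Set.image_pair _ g g' ▸ key _ k,
      Or.inl ⟨c.1, c.2, fun o => ch _ o (Or.inr c.2)⟩⟩))

/-- Two flows; the pins of the row zero lie on both sides of `f`. -/
theorem two (W : Wr G z la lc ld) (h2 : G.an (G.nx (G.nx la)) = z) (pd : δ ∨ jz = .d)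
    (ej : G.xl z ≠ G.xr z → jz = .no) {f : ℤ} (l1 : G.ρ (G.xr z) < f)
    (l2 : f < G.ρ (G.xl z) + G.nn 0) (fr : ∀ e ∈ G.L 0, ∀ x ∈ G.L 0, G.ρ (G.xr z) ≤ G.ρ e →
      G.ρ e < f → f ≤ G.ρ x → G.ρ x < G.ρ (G.xl z) + G.nn 0 → ∃ T, FreeR G ld T ∧
        s(e, G.nx e) ∈ T ∧ s(x, G.nx x) ∈ T ∧ ea G z ∈ T ∧ (δ → s(z, G.xr z) ∈ T) ∧
        ∀ E : EJ J, e.1 ∈ E.Pn → KeepR G (Pin G E) (Vt G E) ⟨True, True, False, δ⟩) :
    ∃ E Y, TK G φ z E Y := by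
  have hF := h.st.lay
  have R := h.rows
  obtain ⟨b, H⟩ := FA.lb_ex hF hφ (fun j => (h.n4 j).trans' (by decide)) R.wp.ev
  have b2 : 2 ≤ G.η b := H.b2
  obtain ⟨m, hm⟩ : ∃ m : ℕ, G.η b = m + 1 := ⟨(G.η b - 1).toNat, by omega⟩
  obtain ⟨-, -, -, d1, -⟩ := h.ord
  obtain ⟨⟨x1, -⟩, ⟨x2, -⟩, x3, -⟩ := h.feet
  obtain ⟨n1, n2, -⟩ := R.nx_mem x1
  have n0 := h.n4 0
  obtain ⟨s, s1, p, p1, -, fin⟩ := sy_flow2 (K := ∅) H (k0 := 1) hm (by omega)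
    (C := fun _ _ _ => True) (R.nx_mem d1).1 d1 trivial fun k _ _ s _ p _ _ =>
      let ⟨y, a, n⟩ := H.pair_any (k + 1 : ℕ) (φ s) (φ p)
      ⟨_, _, y, a, n, trivial⟩
  obtain ⟨a, a1, a2⟩ := H.wrap hm (by exact_mod_cast H.up s1)
  obtain ⟨a, a1, a3, a4, a5⟩ := win h a1
  obtain ⟨c, c1, c2⟩ := H.wrap hm (by exact_mod_cast H.up p1)
  obtain ⟨c, c1, c3, c4, c5⟩ := win h c1
  replace a2 := a3.trans a2
  replace c2 := c3.trans c2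
  have lm : ∀ i, G.l 0 i ∈ G.L 0 := hF.l_mem 0
  have lr : ∀ i, G.ρ (G.l 0 i) = i := R.rho 0
  have ne : ∀ y ∈ G.L 0, ∀ y' ∈ G.L 0, G.ρ y ≠ G.ρ y' → G.ρ (G.xl z) ≤ G.ρ y →
      G.ρ y < G.ρ (G.xl z) + G.nn 0 → G.ρ (G.xl z) ≤ G.ρ y' → G.ρ y' < G.ρ (G.xl z) + G.nn 0 →
      y.1 ≠ y'.1 := fun y hy y' hy' n _ _ _ _ => by
    rcases lt_or_gt_of_ne n with o | o
    exacts [orb_ne h hy hy' o (by omega), (orb_ne h hy' hy o (by omega)).symm]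
  have xx : G.ρ (G.xr z) = G.ρ (G.xl z) ∨ G.ρ (G.xr z) = G.ρ (G.xl z) + 1 :=
    x3.imp (congrArg _) fun c => by rw [c, n2]
  rcases pick_int xx n0 l1 l2 a4 a5 c4 c5 with ⟨k1, k2, k3⟩ | ⟨i, i1, i2, k1, k2, k3⟩
  · obtain ⟨n3, n4, -⟩ := R.nx_mem n1
    obtain ⟨q1, q2, -⟩ := pv_mem hF x1
    obtain ⟨w1, w2⟩ := w_one h q1
    change G.ρ _ = G.ρ _ - 1 at q2
    obtain ⟨T, t0, t1, t2, t3, t4, t5⟩ := fr _ n1 _ w1 (by omega) (by omega) (by omega) (by omega)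
    have u1 := orb_ne h n1 n3 (by omega) (by omega)
    have u2 := orb_ne h n3 w1 (by omega) (by omega)
    have ya : (φ s).1 = (G.xl z).1 := by rw [← a2, R.inj a1 x1 k2]
    have yc : (φ p).1 = (G.xl z).1 := by rw [← c2, R.inj c1 x1 k3]
    exact core (μ := True) h hφ H hm W h2 pd ej fin (H.rwm (x := G.nx (G.nx (G.xl z))) x1) n1 w1
      (by omega) (by omega) (by omega) ((FA.rm_pn _ _ _).trans (Set.pair_comm _ _))
      (lk2 hF hφ (hF.la s1) (hF.la p1) (Or.inl ⟨trivial, ya⟩) (Or.inl ⟨trivial, yc⟩) fun _ =>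
        Or.inr (Or.inl ⟨trivial, ya⟩))
      (fun _ => ⟨fun q => by rw [← q] at k1; omega, Or.inl rfl, _, n3,
        Or.inr ⟨rfl, fun o => o.elim u2 u1.symm⟩, (orb_ne h x1 n3 (by omega) (by omega)).symm⟩)
      t0 t1 t2 t3 t4 t5
  obtain ⟨p', t', q1, q2, rfl, rfl, q3, q4, q5⟩ : ∃ p' t', p' ∈ G.L 0 ∧ t' ∈ G.L 0 ∧ i1 = G.ρ p' ∧
      i2 = G.ρ t' ∧ G.ρ (G.xl z) ≤ G.ρ t' ∧ G.ρ t' < G.ρ (G.xl z) + G.nn 0 ∧
      ((p'.1 = (φ s).1 ∧ t'.1 = (φ p).1) ∨ (p'.1 = (φ p).1 ∧ t'.1 = (φ s).1)) := by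
    rcases k1 with k | k
    exacts [⟨a, c, a1, c1, k.1, k.2, c4, c5, Or.inl ⟨a2, c2⟩⟩,
      ⟨c, a, c1, a1, k.1, k.2, a4, a5, Or.inr ⟨c2, a2⟩⟩]
  rw [← lr i] at k2 k3
  have rw0 : FA.Rw (FT G) 0 (FA.r2 (G.l 0 i) p' t') := H.rw2 (lm i) ⟨t', q2, rfl⟩
    (ne _ (lm i) _ q2 k2 (by omega) (by omega) q3 q4)
    (ne _ (lm i) _ q1 (by omega) (by omega) (by omega) (by omega) (by omega))
  have lk := lk_pair (K := ∅) (j := m) (s' := G.l 0 i) (Y := {i | False ∧ i = (G.xl z).1}) hF hφ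
    (hF.la s1) (hF.la p1) q5
  rcases k3 with ⟨k3, k4, k5, k6⟩ | ⟨k3, k4, k5, k6⟩
  · obtain ⟨T, t0, t1, t2, t3, t4, t5⟩ := fr _ (lm i) _ q1 k3 k4 k5 k6
    exact core h hφ H hm W h2 pd ej fin rw0 (lm i) q1 k3 (by omega) k6 rfl lk False.elim
      t0 t1 t2 t3 t4 t5
  · obtain ⟨T, t0, t1, t2, t3, t4, t5⟩ := fr _ q1 _ (lm i) k3 k4 k5 k6
    exact core h hφ H hm W h2 pd ej fin rw0 q1 (lm i) k3 (by omega) k6 (Set.pair_comm _ _) lk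
      False.elim t0 t1 t2 t3 t4 t5

/-- the plan of `S_H2` -/
theorem tk_h2 (W : Wr G z la lc ld) (h2 : G.an (G.nx (G.nx la)) = z) {f : ℤ}
    (l1 : G.ρ (G.xr z) < f) (l2 : f < G.ρ (G.xl z) + G.nn 0) (fr : ∀ e ∈ G.L 0, ∀ x ∈ G.L 0,
      G.ρ (G.xr z) ≤ G.ρ e → G.ρ e < f → f ≤ G.ρ x → G.ρ x < G.ρ (G.xl z) + G.nn 0 →
        FreeR G ld {s(z, G.xr z), s(e, G.nx e), s(x, G.nx x), ea G z}) : ∃ E Y, TK G φ z E Y :=
  two (δ := True) (jz := .no) h hφ W h2 (Or.inl trivial) (fun _ => rfl) l1 l2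
    fun e he x hx k1 k2 k3 k4 => ⟨_, fr e he x hx k1 k2 k3 k4, Or.inr (Or.inl rfl),
      Or.inr (Or.inr (Or.inl rfl)), Or.inr (Or.inr (Or.inr rfl)), fun _ => Or.inl rfl,
      fun _ _ => keepR_d trivial⟩

/-- the plan of `S_HO` -/
theorem tk_ho (W : Wr G z la lc ld) (h2 : G.an (G.nx (G.nx la)) = z) (q : G.xr z = G.xl z)
    (hf : FP.HF G v z) (fr : ∀ x ∈ G.L 0, G.ρ (G.xr z) < G.ρ x →
      G.ρ x < G.ρ (G.xl z) + G.nn 0 →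
        FreeR G ld {s(G.xr z, G.nx (G.xr z)), s(x, G.nx x), ea G z}) : ∃ E Y, TK G φ z E Y := by
  have := h.n4 0
  refine two (δ := False) (jz := .d) (f := G.ρ (G.xr z) + 1) h hφ W h2 (Or.inr rfl)
    (fun n => absurd q.symm n) (by omega) (by rw [q]; omega) fun e he x hx k1 k2 k3 k4 => ?_
  obtain rfl : e = G.xr z := h.rows.inj he h.feet.2.1.1 (by omega)
  exact ⟨_, fr x hx (by omega) k4, Or.inl rfl, Or.inr (Or.inl rfl), Or.inr (Or.inr rfl),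
    False.elim, fun E k => h.keepR_hub (vt_tr h) (pin_tr h) (Or.inl k) hf⟩

end

end Pool.Agent.P.MP_08fd93_co.FH2
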